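import Pool.Agent.H34.ZN.All
import Pool.Agent.H84.ZN.WIN
import Pool.Agent.H27.ZF.TB

/-!
Board zf: few L-functions are large to the right of the critical line.
-/

set_option autoImplicit false

namespace Pool.Agent.H34.ZF

open MeasureTheory Pool.Agent.H27.L1.H34.GM Pool.Agent.H27.L1.H34.GZ Pool.Agent.H27.L1.H34.GU
  Pool.Agent.H27.L1.H34.GA
open Pool.Agent.H27.L1.H68.GHK (ip rt Hn OrS)
open Pool.Agent.H27.ZF (Fam DB Bk)

/-- the L-function is determined by its coefficients -/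
lemma l_uniq {m : ℕ} {lam : ℕ → ℂ} {L L' : ℂ → ℂ} (h : IsL m 1 lam L)
    (h' : IsL m 1 lam L') : L = L' := by
  have ha : AnalyticOnNhd ℂ L Set.univ := h.1.differentiableOn.analyticOnNhd isOpen_univ
  have ha' : AnalyticOnNhd ℂ L' Set.univ := h'.1.differentiableOn.analyticOnNhd isOpen_univ
  refine ha.eq_of_eventuallyEq ha' (z₀ := ((m : ℝ) + 3 : ℝ)) ?_
  have hO : IsOpen {s : ℂ | (m : ℝ) + 2 < s.re} := isOpen_lt continuous_const Complex.continuous_re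
  have hm : (((m : ℝ) + 3 : ℝ) : ℂ) ∈ {s : ℂ | (m : ℝ) + 2 < s.re} := by
    show (m : ℝ) + 2 < (((m : ℝ) + 3 : ℝ) : ℂ).re
    rw [Complex.ofReal_re]
    linarith
  filter_upwards [hO.mem_nhds hm] with s hs
  exact (h.2 s hs).unique (h'.2 s hs)

/-- larger Lipschitz constants are Lipschitz constants -/
lemma lip_mono {m N : ℕ} [NeZero N] {D : Set (V m)} {F : Mat m → VN m N → ℂ} {Q Q' : ℝ}
    (h : Lip D F Q) (h0 : 0 ≤ Q) (hQ : Q ≤ Q') : Lip D F Q' := by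
  intro w hw
  have h1 : 0 ≤ sz (w - 1) := norm_nonneg _
  exact (h w hw).trans (pow_le_pow_left₀ (by positivity) (mul_le_mul_of_nonneg_right hQ h1) 2)

/-- the sum of the weights -/
lemma wt_sum (h_LSF : Pool.Agent.H27.ZF.T_LSF) (m : ℕ) (ε : ℝ) (hm1 : 1 ≤ m) (hε : 0 < ε) :
    ∃ C : ℝ, 0 < C ∧
    ∀ (N : ℕ) [NeZero N] (T : ℕ → Finset (ZM m)) (D : Set (V m)), SysZ m N T D →
    ∀ P : ℝ, 1 ≤ P → ∀ (S : Type) [Fintype S] [DecidableEq S] (F : S → Mat m → VN m N → ℂ)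
      (lam : S → ℕ → ℂ) (W : S → ℝ), Fam T D P F lam W →
      ∑ i, W i * (2 * P) ≤ C * ((N : ℝ) * P) ^ ε * ((N : ℝ) ^ m * P ^ (m ^ 2)) := by
  obtain ⟨C, hC, h⟩ := h_LSF m 1 ε hm1 le_rfl hε
  refine ⟨C, hC, ?_⟩
  intro N _ T D hS P hP S _ _ F lam W hF
  have hN1 : (1 : ℝ) ≤ N := by
    have : N ≠ 0 := NeZero.ne N
    have : 1 ≤ N := by omega
    exact_mod_cast this
  have hP0 : 0 < P := by linarith
  have hQ1 : (1 : ℝ) ≤ N * P ^ m := by
    have := one_le_pow₀ hP (n := m)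
    nlinarith
  have h1 := h N T D hS P hP S F lam W hF 0 (by rw [pow_zero]; exact hQ1) (fun _ => 1)
    (fun _ => by simp) 0 0 le_rfl zero_le_one
  have hl : ∀ i, lam i 1 = 1 := fun i => 
    Pool.Agent.H27.L1.H69.GB.lam_one hS (hF.cus i).1.toHecA (Pool.Agent.H27.L1.H69.GA.spx_nz hS (by rw [mou_nU F hF.orth i]; exact one_ne_zero))
  have h2 : ∀ i (t : ℝ), DB (lam i) (fun _ => 1) 0 (((0 : ℝ) : ℂ) + (t + (0 : ℝ)) * Complex.I) = 1 := by
    intro i t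
    unfold DB Bk
    rw [show Finset.Ioc (2 ^ 0 / 2) (2 ^ 0) = {1} by decide, Finset.sum_singleton, hl]
    simp
  simp only [h2] at h1
  have h3 : ∑ i, ENNReal.ofReal (W i) * ∫⁻ _t in Set.Icc (-P) P, ENNReal.ofReal (‖(1 : ℂ)‖ ^ 2) =
      ENNReal.ofReal (∑ i, W i * (2 * P)) := by
    rw [ENNReal.ofReal_sum_of_nonneg (fun i _ => mul_nonneg (hF.nn i) (by linarith))]
    refine Finset.sum_congr rfl fun i _ => ?_
    rw [ENNReal.ofReal_mul (hF.nn i)]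
    congr 1
    rw [norm_one, one_pow, ENNReal.ofReal_one, setLIntegral_one, Real.volume_Icc]
    congr 1
    ring
  rw [h3] at h1
  have h4 := (ENNReal.ofReal_le_ofReal_iff (by positivity)).1 h1
  refine h4.trans (le_of_eq ?_)
  simp

open Classical in
/-- few L-functions are large to the right of the critical line -/
theorem pf_BL (h_LSF : Pool.Agent.H27.ZF.T_LSF) : Pool.Agent.H27.ZF.T_BL := by
  intro m d B ε hm1 hd hd1 hB hε
  obtain ⟨CW, hCW, hwt⟩ := wt_sum h_LSF m ε hm1 hε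
  obtain ⟨σ2, hσ2, hfar⟩ := Pool.Agent.H31.ZN.pf_FAR Pool.Agent.H27.L1.H34.GZ.a_TNZ m hm1
  obtain ⟨σ1, hσ1⟩ : ∃ σ1 : ℝ, σ1 = max B σ2 := ⟨_, rfl⟩
  have hσB : B ≤ σ1 := by rw [hσ1]; exact le_max_left _ _
  have hσσ : σ2 ≤ σ1 := by rw [hσ1]; exact le_max_right _ _
  obtain ⟨C1, hC1, hstr⟩ := Pool.Agent.H34.ZN.c_STR m (m ^ 2 + 1) hm1 d σ1 B hd hd1
    (hσ2.trans hσσ) (by linarith)
  obtain ⟨e, he⟩ : ∃ e : ℝ, e = min ε 1 := ⟨_, rfl⟩
  have he0 : 0 < e := by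
    rw [he]
    exact lt_min hε one_pos
  have hec : e ≤ ε := by
    rw [he]
    exact min_le_left _ _
  have he1 : e ≤ 1 := by
    rw [he]
    exact min_le_right _ _
  obtain ⟨C2, hC2, hall⟩ := Pool.Agent.H27.L1.H34.GHK.c_ALL m hm1 e he0
  refine ⟨2 ^ (m ^ 2 + 1 + 3) * C2 * C1 ^ 4 + 2 * CW * C1 ^ 4, by positivity, ?_⟩
  intro N _ T D hS P hP S _ _ F lam W hF L hL A hA
  have hN0 : (0 : ℝ) < N := by
    have : N ≠ 0 := NeZero.ne N
    have : 0 < N := by omega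
    exact_mod_cast this
  have hN1 : (1 : ℝ) ≤ N := by
    have : N ≠ 0 := NeZero.ne N
    have : 1 ≤ N := by omega
    exact_mod_cast this
  have hP0 : 0 < P := by linarith
  have hNP : 1 ≤ (N : ℝ) * P := by nlinarith
  have hA0 : 0 < A := by linarith
  obtain ⟨M, hM⟩ : ∃ M : ℝ, M = ((N : ℝ) * P) ^ ε * ((N : ℝ) ^ m * P ^ (m ^ 2)) := ⟨_, rfl⟩
  have hM0 : 0 < M := by
    rw [hM]
    positivity
  have hNPe : ((N : ℝ) * P) ^ e ≤ ((N : ℝ) * P) ^ ε := Real.rpow_le_rpow_of_exponent_le hNP hec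
  rw [show (2 ^ (m ^ 2 + 1 + 3) * C2 * C1 ^ 4 + 2 * CW * C1 ^ 4) * ((N : ℝ) * P) ^ ε *
    ((N : ℝ) ^ m * P ^ (m ^ 2)) = (2 ^ (m ^ 2 + 1 + 3) * C2 * C1 ^ 4 + 2 * CW * C1 ^ 4) * M by
      rw [hM]; ring]
  rcases lt_or_ge A C1 with hcase | hcase
  · -- small `A`: the trivial bound
    have h1 : ∑ i, W i * (((Finset.Icc (-⌊P⌋) ⌊P⌋).filter (fun k : ℤ => ∃ s : ℂ,
        1 / 2 + d ≤ s.re ∧ s.re ≤ B ∧ |s.im - k| ≤ B ∧ A < ‖L i s‖)).card : ℝ) ≤
        2 * ∑ i, W i * (2 * P) := by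
      rw [Finset.mul_sum]
      refine Finset.sum_le_sum fun i _ => ?_
      have h2 : (((Finset.Icc (-⌊P⌋) ⌊P⌋).filter (fun k : ℤ => ∃ s : ℂ,
        1 / 2 + d ≤ s.re ∧ s.re ≤ B ∧ |s.im - k| ≤ B ∧ A < ‖L i s‖)).card : ℝ) ≤ 2 * (2 * P) := by
        have h3 : ((Finset.Icc (-⌊P⌋) ⌊P⌋).filter (fun k : ℤ => ∃ s : ℂ,
          1 / 2 + d ≤ s.re ∧ s.re ≤ B ∧ |s.im - k| ≤ B ∧ A < ‖L i s‖)).card ≤
            (Finset.Icc (-⌊P⌋) ⌊P⌋).card := Finset.card_filter_le _ _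
        rw [Int.card_Icc] at h3
        have h4 : ((((⌊P⌋ + 1 - -⌊P⌋).toNat : ℕ) : ℤ) : ℝ) = 2 * (⌊P⌋ : ℝ) + 1 := by
          have h5 : (0 : ℤ) ≤ ⌊P⌋ := Int.floor_nonneg.2 hP0.le
          rw [Int.toNat_of_nonneg (by omega)]
          push_cast
          ring
        have h5 : ((⌊P⌋ : ℤ) : ℝ) ≤ P := Int.floor_le P
        have h6 : (((Finset.Icc (-⌊P⌋) ⌊P⌋).filter (fun k : ℤ => ∃ s : ℂ,
          1 / 2 + d ≤ s.re ∧ s.re ≤ B ∧ |s.im - k| ≤ B ∧ A < ‖L i s‖)).card : ℝ) ≤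
            ((⌊P⌋ + 1 - -⌊P⌋).toNat : ℝ) := by exact_mod_cast h3
        rw [show ((⌊P⌋ + 1 - -⌊P⌋).toNat : ℝ) = ((((⌊P⌋ + 1 - -⌊P⌋).toNat : ℕ) : ℤ) : ℝ) by
          push_cast; rfl, h4] at h6
        linarith
      calc W i * _ ≤ W i * (2 * (2 * P)) := mul_le_mul_of_nonneg_left h2 (hF.nn i)
        _ = _ := by ring
    have h2 := hwt N T D hS P hP S F lam W hF
    rw [show CW * ((N : ℝ) * P) ^ ε * ((N : ℝ) ^ m * P ^ (m ^ 2)) = CW * M by rw [hM]; ring] at h2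
    rw [le_div_iff₀ (by positivity)]
    have h3 : A ^ 4 ≤ C1 ^ 4 := pow_le_pow_left₀ hA0.le hcase.le 4
    have h4 : (0 : ℝ) ≤ 2 ^ (m ^ 2 + 1 + 3) * C2 * C1 ^ 4 * M := by positivity
    calc _ ≤ (2 * (CW * M)) * C1 ^ 4 := by
          refine mul_le_mul (h1.trans (by linarith)) h3 (by positivity) (by positivity)
      _ ≤ _ := by nlinarith
  · obtain ⟨A', hA'⟩ : ∃ A' : ℝ, A' = A / C1 := ⟨_, rfl⟩
    have hA'1 : 1 ≤ A' := by
      rw [hA', le_div_iff₀ hC1, one_mul]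
      exact hcase
    -- the fourth moment at the heights `R P`
    have hmom : ∀ R : ℝ, 1 ≤ R → ∀ J : S → Finset ℝ,
        (∀ i, ∀ a ∈ J i, ∀ b ∈ J i, a ≠ b → 1 ≤ |a - b|) → (∀ i, ∀ t ∈ J i, |t| ≤ R * P) →
        ∑ i, W i * ∑ t ∈ J i, ‖L i (1 / 2 + t * Complex.I)‖ ^ 4 ≤ C2 * M * R ^ (m ^ 2 + 1) := by
      intro R hR J hJ1 hJ2
      have hR0 : 0 < R := by linarith
      have hPR : P ≤ R * P := le_mul_of_one_le_left hP0.le hR
      obtain ⟨L', hL', hb⟩ := hall N T D hS (R * P) (hP.trans hPR) S F lam W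
        (fun i => ⟨(hF.cus i).1, lip_mono (hF.cus i).2 hP0.le hPR⟩) hF.orth hF.nn hF.wt
      have eL : L' = L := funext fun i => l_uniq (hL' i) (hL i)
      rw [eL] at hb
      refine (hb J hJ1 hJ2).trans ?_
      have h5 : R ^ e ≤ R := by
        calc R ^ e ≤ R ^ (1 : ℝ) := Real.rpow_le_rpow_of_exponent_le hR he1
          _ = R := Real.rpow_one R
      calc C2 * ((N : ℝ) * (R * P)) ^ e * (N : ℝ) ^ m * (R * P) ^ (m ^ 2) =
          C2 * (((N : ℝ) * P) ^ e * R ^ e) * ((N : ℝ) ^ m * P ^ (m ^ 2)) * R ^ (m ^ 2) := by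
            rw [← Real.mul_rpow (by positivity) hR0.le, mul_pow]
            rw [show (N : ℝ) * P * R = N * (R * P) by ring]
            ring
        _ ≤ C2 * (((N : ℝ) * P) ^ ε * R) * ((N : ℝ) ^ m * P ^ (m ^ 2)) * R ^ (m ^ 2) := by gcongr
        _ = C2 * M * R ^ (m ^ 2 + 1) := by
            rw [hM, pow_succ]
            ring
    have hwin := Pool.Agent.H84.ZN.win (Finset.univ : Finset S) W
      (fun i u => ‖L i (1 / 2 + u * Complex.I)‖) P (C2 * M) A' (m ^ 2 + 1)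
      (m ^ 2 + 1) (fun i _ => hF.nn i) (fun i u => norm_nonneg _) hP (by positivity) (by linarith)
      (by omega) hmom
    calc ∑ i, W i * (((Finset.Icc (-⌊P⌋) ⌊P⌋).filter (fun k : ℤ => ∃ s : ℂ,
        1 / 2 + d ≤ s.re ∧ s.re ≤ B ∧ |s.im - k| ≤ B ∧ A < ‖L i s‖)).card : ℝ) ≤
        ∑ i, W i * (((Finset.Icc (-⌊P⌋) ⌊P⌋).filter (fun k : ℤ => ∃ u : ℝ,
                A' * (1 + |u - k|) ^ (m ^ 2 + 1) < ‖L i (1 / 2 + u * Complex.I)‖)).card : ℝ) := by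
          refine Finset.sum_le_sum fun i _ => mul_le_mul_of_nonneg_left ?_ (hF.nn i)
          refine Nat.cast_le.2 (Finset.card_le_card ?_)
          intro k hk
          rw [Finset.mem_filter] at hk ⊢
          refine ⟨hk.1, ?_⟩
          obtain ⟨s, hs1, hs2, hs3, hs4⟩ := hk.2
          have hkP : |(k : ℝ)| ≤ P := by
            have hk1 := Finset.mem_Icc.1 hk.1
            have h4 : ((⌊P⌋ : ℤ) : ℝ) ≤ P := Int.floor_le P
            have h5 : (k : ℝ) ≤ (⌊P⌋ : ℤ) := by exact_mod_cast hk1.2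
            have h6 : -((⌊P⌋ : ℤ) : ℝ) ≤ (k : ℝ) := by exact_mod_cast hk1.1
            rw [abs_le]
            constructor <;> linarith
          by_contra hcon
          simp only [not_exists, not_lt] at hcon
          have h2 := hstr N T D hS (F i) (lam i) P (hF.cus i).1 (mou_nU F hF.orth i) (hF.cus i).2 hP
            (L i) (hL i) (fun w hw => by
              have h3 := hfar N T D hS (F i) (lam i) (hF.cus i).1
                (Pool.Agent.H27.L1.H69.GA.spx_nz hS (by rw [mou_nU F hF.orth i]; exact one_ne_zero)) (L i) (hL i) w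
                (hσσ.trans hw)
              have h4 : ‖L i w‖ ≤ ‖L i w - 1‖ + ‖(1 : ℂ)‖ := by
                have := norm_add_le (L i w - 1) 1
                rwa [sub_add_cancel] at this
              rw [norm_one] at h4
              linarith) k A' hkP hA'1 hcon s hs1 (hs2.trans hσB) hs3
          have h3 : C1 * A' = A := by
            rw [hA']
            field_simp
          rw [h3] at h2
          linarith
      _ ≤ 2 ^ (m ^ 2 + 1 + 3) * (C2 * M) / A' ^ 4 := hwin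
      _ = 2 ^ (m ^ 2 + 1 + 3) * C2 * C1 ^ 4 * M / A ^ 4 := by
          rw [hA', div_pow]
          field_simp
      _ ≤ _ := by
          have h7 : 2 ^ (m ^ 2 + 1 + 3) * C2 * C1 ^ 4 ≤
            2 ^ (m ^ 2 + 1 + 3) * C2 * C1 ^ 4 + 2 * CW * C1 ^ 4 := by
              have : 0 ≤ 2 * CW * C1 ^ 4 := by positivity
              linarith
          gcongr

end Pool.Agent.H34.ZF
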